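import Pool.Agent.Helper79.GS.St1

/-! # GS MODULE WNM: the value -/

set_option autoImplicit false

namespace Pool.Agent.Helper18.GS

open Pool.Agent.Helper19.SK
open Pool.Agent.Helper79.GS

private theorem rch_trans {P : Type} {A : Arena P} {b x y : P} {k l : ℕ} (h1 : Rch A b k x)
    (h2 : Rch A x l y) : Rch A b (k + l) y := by
  induction h2 with
  | refl => exact h1
  | rev l c x' y' _ h3 h4 ih => exact Rch.rev _ c x' y' ih h3 h4
  | irr l c x' y' _ h3 h4 ih => exact Rch.irr _ c x' y' ih h3 h4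

private theorem rch_symm {P : Type} {A : Arena P} {b x : P} {k : ℕ} (h : Rch A b k x) (hk : k = 0) :
    Rch A x 0 b := by
  induction h with
  | refl => exact Rch.refl
  | rev k c x' y' _ h3 h4 ih =>
    have h5 : Rch A y' 0 x' := Rch.rev 0 (!c) y' x' Rch.refl h4 (by rw [Bool.not_not]; exact h3)
    have h6 := rch_trans h5 (ih hk)
    simpa using h6
  | irr k c x' y' _ h3 h4 ih => omega

private theorem rch_loop {P : Type} {A : Arena P} {b : P} {l : ℕ} (h : Rch A b l b) :
    ∀ j : ℕ, Rch A b (j * l) b := by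
  intro j
  induction j with
  | zero => rw [zero_mul]; exact Rch.refl
  | succ j ih =>
    rw [add_mul, one_mul]
    exact rch_trans ih h

private theorem wn_eq {P : Type} (A : Arena P) (H₀ : Set P) (r : ℕ) :
    WN A H₀ r = Wst A H₀ (EN A H₀ r) := by
  cases r <;> rfl

/-- The board after an irreversible placement from the component of `b`. -/
private theorem away {P : Type} {A : Arena P} {b u b' x : P} {r l : ℕ} {c : Bool}
    (hBd : Bd A r b) (hu : Rch A b 0 u) (h1 : A.mv c u b') (h2 : ¬ A.mv (!c) b' u)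
    (h3 : Rch A b' l x) : ¬ Rch A b 0 x := by
  intro hx
  have h4 : Rch A b' (l + 0) b := rch_trans h3 (rch_symm hx rfl)
  have h5 : Rch A b (0 + 1) b' := Rch.irr 0 c u b' hu h1 h2
  have h6 := rch_loop (rch_trans h5 h4) (r + 1)
  have h7 := hBd _ _ h6
  have h8 : r + 1 ≤ (r + 1) * (0 + 1 + (l + 0)) := Nat.le_mul_of_pos_right _ (by omega)
  omega

theorem hWNM (hLOC : StLOC) (hBEH : StBEH) (hAHD : StAHD) : StWNM := by
  intro P _ A hSc H₀ r
  induction r with
  | zero =>
    intro b c hBd
    have hEX : ∀ (c : Bool) (u : P), u ∈ {x | Rch A b 0 x} → ∀ H : Set P,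
        (∀ x, x ∉ {x | Rch A b 0 x} → (x ∈ H ↔ x ∈ insert b H₀)) →
        ((∃ b', A.mv c u b' ∧ ¬ A.mv (!c) b' u ∧ b' ∉ H ∧ ¬ MW A (insert b' H) false (!c) b') ↔
          EN A H₀ 0 c u) := by
      intro c u hu H hH
      constructor
      · rintro ⟨b', h1, h2, -, -⟩
        have h3 := hBd _ _ (Rch.irr 0 c u b' hu h1 h2)
        omega
      · intro h
        exact absurd h id
    have hcl : ∀ (c : Bool) (u v : P), u ∈ {x | Rch A b 0 x} → rv A c u v →
        v ∈ {x | Rch A b 0 x} := fun c u v hu h => Rch.rev 0 c u v hu h.1 h.2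
    have hb : b ∈ {x | Rch A b 0 x} := Rch.refl
    rw [wn_eq]
    by_cases ha : ahead A c b
    · rw [hAHD P A hSc (EN A H₀ 0) _ (insert b H₀) hcl hEX c b (insert b H₀) hb
        (Set.mem_insert _ _) (fun _ _ => Iff.rfl) ha]
      unfold Wst
      rw [if_pos ha]
    · rw [hBEH P A hSc (EN A H₀ 0) _ (insert b H₀) hcl hEX c b (insert b H₀) false hb
        (Set.mem_insert _ _) (fun _ _ => Iff.rfl) ha]
      unfold Wst
      rw [if_neg ha]
  | succ r IH =>
    intro b c hBd
    have hb : b ∈ {x | Rch A b 0 x} := Rch.refl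
    have hEX : ∀ (c : Bool) (u : P), u ∈ {x | Rch A b 0 x} → ∀ H : Set P,
        (∀ x, x ∉ {x | Rch A b 0 x} → (x ∈ H ↔ x ∈ insert b H₀)) →
        ((∃ b', A.mv c u b' ∧ ¬ A.mv (!c) b' u ∧ b' ∉ H ∧ ¬ MW A (insert b' H) false (!c) b') ↔
          EN A H₀ (r + 1) c u) := by
      intro c u hu H hH
      show _ ↔ ∃ b', A.mv c u b' ∧ ¬ A.mv (!c) b' u ∧ b' ∉ H₀ ∧ ¬ WN A H₀ r (!c) b'
      refine exists_congr fun b' => ?_
      by_cases h1 : A.mv c u b'
      · by_cases h2 : A.mv (!c) b' u
        · simp [h2]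
        · have haway : ∀ l x, Rch A b' l x → ¬ Rch A b 0 x := fun l x h3 =>
            away hBd hu h1 h2 h3
          have hagree : ∀ l x, Rch A b' l x → (x ∈ H ↔ x ∈ H₀) := by
            intro l x h3
            have h4 := haway l x h3
            have h5 : x ≠ b := by
              rintro rfl
              exact h4 Rch.refl
            rw [hH x h4, Set.mem_insert_iff]
            simp [h5]
          have hBd' : Bd A r b' := by
            intro l x h3
            have h4 : Rch A b (0 + 1 + l) x := rch_trans (Rch.irr 0 c u b' hu h1 h2) h3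
            have h5 := hBd _ _ h4
            omega
          have e1 : MW A (insert b' H) false (!c) b' ↔ MW A (insert b' H₀) false (!c) b' := by
            refine hLOC P A _ _ false (!c) b' fun l x h3 => ?_
            rw [Set.mem_insert_iff, Set.mem_insert_iff, hagree l x h3]
          rw [e1, IH b' (!c) hBd', hagree 0 b' Rch.refl]
      · simp [h1]
    have hcl : ∀ (c : Bool) (u v : P), u ∈ {x | Rch A b 0 x} → rv A c u v →
        v ∈ {x | Rch A b 0 x} := fun c u v hu h => Rch.rev 0 c u v hu h.1 h.2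
    rw [wn_eq]
    by_cases ha : ahead A c b
    · rw [hAHD P A hSc (EN A H₀ (r + 1)) _ (insert b H₀) hcl hEX c b (insert b H₀) hb
        (Set.mem_insert _ _) (fun _ _ => Iff.rfl) ha]
      unfold Wst
      rw [if_pos ha]
    · rw [hBEH P A hSc (EN A H₀ (r + 1)) _ (insert b H₀) hcl hEX c b (insert b H₀) false hb
        (Set.mem_insert _ _) (fun _ _ => Iff.rfl) ha]
      unfold Wst
      rw [if_neg ha]

end Pool.Agent.Helper18.GS
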